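import Pool.Agent.Helper84.LE.All
import Pool.Agent.Helper63.OWN.E167b

/-!
# Gaussian endpoint asymptotics of the intrinsic-distance two-point function

Critical Bernoulli bond percolation on the edges of Z^d, both limits of Q1.
-/

set_option autoImplicit false
open MeasureTheory Filter Topology Pool.OWN.E167

namespace Pool.Agent.Results.MP_e167eb_pr.BernoulliBothLimits

theorem result :
    ∃ d₀ : ℕ, 6 < d₀ ∧ ∀ d : ℕ, d₀ ≤ d → ∃ s a : ℝ, 0 < s ∧ 0 < a ∧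
      ∀ k : EuclideanSpace ℝ (Fin d),
        Tendsto (fun n : ℕ => tauHat d n ((Real.sqrt n)⁻¹ • k)) atTop
          (𝓝 ((a * Real.exp (-(s * ‖k‖ ^ 2 / (2 * d))) : ℝ) : ℂ)) ∧
        Tendsto (fun n : ℕ => rhoHat d n ((Real.sqrt n)⁻¹ • k)) atTop
          (𝓝 ((Real.exp (-(s * ‖k‖ ^ 2 / (2 * d))) : ℝ) : ℂ)) := by
  obtain ⟨h1, h2, h3, h4, h5, h6⟩ := Pool.LE.allMain
  exact own (Pool.LE.final h1 h2 h3 h4 h5 h6)

end Pool.Agent.Results.MP_e167eb_pr.BernoulliBothLimits
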